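import Pool.Agent.Lib.MP_6aa000_nt.H77.Sieve
import Pool.Agent.Lib.MP_6aa000_nt.NW.Fin

/-!
Many non-Wieferich primes `p` have `p - 1` composed of prime powers below `p ^ (1 - δ)`.
-/

set_option autoImplicit false

namespace Pool.Agent.Lib.MP_6aa000_nt.H77

open Finset Filter

lemma one_mod {p n : ℕ} (hp : p.Prime) (h2 : p ≠ 2) (hW : ¬ p ^ 2 ∣ 2 ^ (p - 1) - 1)
    (hn : p - 1 ∣ n) (hpn : ¬ p ∣ n) : ∃ w : ℤ, ¬ (p : ℤ) ∣ w ∧ (2 : ℤ) ^ n = 1 + p * w := by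
  obtain ⟨k, rfl⟩ := hn
  have hcop : Nat.Coprime 2 p := (Nat.coprime_primes Nat.prime_two hp).2 (Ne.symm h2)
  obtain ⟨u, hu⟩ : p ∣ 2 ^ (p - 1) - 1 := by
    have := Nat.ModEq.pow_totient hcop
    rw [Nat.totient_prime hp] at this
    exact (Nat.modEq_iff_dvd' Nat.one_le_two_pow).1 this.symm
  have hu1 : ¬ p ∣ u := by
    rintro ⟨v, rfl⟩
    exact hW ⟨v, by rw [hu]; ring⟩
  have hu2 : (2 : ℤ) ^ (p - 1) = 1 + p * u := by
    have h3 : 2 ^ (p - 1) = 1 + p * u := by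
      have : 1 ≤ 2 ^ (p - 1) := Nat.one_le_two_pow
      omega
    exact_mod_cast h3
  have h3 : ∀ k : ℕ, ∃ t : ℤ, (1 + (p : ℤ) * u) ^ k = 1 + k * (p * u) + p ^ 2 * t := by
    intro k
    induction k with
    | zero => exact ⟨0, by simp⟩
    | succ k ih =>
      obtain ⟨t, ht⟩ := ih
      exact ⟨t + k * u ^ 2 + p * u * t, by rw [pow_succ, ht]; push_cast; ring⟩
  obtain ⟨t, ht⟩ := h3 k
  refine ⟨k * u + p * t, fun h6 => ?_, by rw [pow_mul, hu2, ht]; ring⟩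
  have h7 : (p : ℤ) ∣ k * u := (dvd_add_left (dvd_mul_right _ _)).1 h6
  have h8 : p ∣ k * u := by exact_mod_cast h7
  exact ((Nat.Prime.dvd_mul hp).1 h8).elim (fun h9 => hpn (h9.mul_left _)) hu1

lemma no_sol {p n e m : ℕ} (hp : p.Prime) (h2 : p ≠ 2) (hW : ¬ p ^ 2 ∣ 2 ^ (p - 1) - 1)
    (hn : p - 1 ∣ n) (hpn : ¬ p ∣ n * m) (he : p ∣ e) (he' : p - 1 ∣ e) (x y : ℤ) :
    1 + x ^ 2 * y ^ 3 ≠ 2 ^ n * (m : ℤ) ^ e := by
  intro h
  obtain ⟨w, hw, h1⟩ := one_mod hp h2 hW hn fun k => hpn (k.mul_right m)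
  have hm : Nat.Coprime m (p ^ 2) :=
    Nat.Coprime.pow_right 2 ((Nat.Prime.coprime_iff_not_dvd hp).2 fun k => hpn (k.mul_left n)).symm
  obtain ⟨s, hs⟩ : ∃ s : ℤ, (m : ℤ) ^ e = 1 + p ^ 2 * s := by
    have c : Nat.Coprime p (p - 1) := by
      have := hp.pos
      rw [show p = p - 1 + 1 by omega]
      simp
    obtain ⟨j, rfl⟩ := c.mul_dvd_of_dvd_of_dvd he he'
    have k := (Nat.ModEq.pow_totient hm).pow j
    rw [Nat.totient_prime_pow hp two_pos, one_pow, ← pow_mul] at k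
    obtain ⟨s, hs⟩ := k.symm.dvd
    refine ⟨s, ?_⟩
    push_cast at hs
    rw [pow_one] at hs
    linarith
  rw [h1, hs] at h
  have hpi : Prime (p : ℤ) := Nat.prime_iff_prime_int.1 hp
  have h4 : x ^ 2 * y ^ 3 = p * (w + p * (s + p * w * s)) := by linear_combination h
  have h5 : (p : ℤ) ^ 2 ∣ x ^ 2 * y ^ 3 := by
    rcases hpi.dvd_or_dvd (⟨_, h4⟩ : (p : ℤ) ∣ x ^ 2 * y ^ 3) with h6 | h6
    · exact (pow_dvd_pow_of_dvd (hpi.dvd_of_dvd_pow h6) 2).mul_right _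
    · exact ((pow_dvd_pow_of_dvd (hpi.dvd_of_dvd_pow h6) 2).trans
        (pow_dvd_pow y (by norm_num))).mul_left _
  rw [h4, sq] at h5
  exact hw ((dvd_add_left (dvd_mul_right _ _)).1 ((mul_dvd_mul_iff_left hpi.ne_zero).1 h5))

/-- the counting step with free parameters -/
lemma count {k Y W A B n : ℕ} (hW : 16 ≤ W) (hWk : W ≤ k) (hA : ∀ a, 2 ^ a ≤ k * Y → a < A)
    (hB : ∀ q, q ^ 2 ≤ k * Y → q < B) (hn : ∀ d, 1 ≤ d → d ≤ k → d ∣ n) (F : Finset ℕ)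
    (hF : ∀ p ∈ F, p.Prime ∧ p ≤ k * Y ∧ ¬ p - 1 ∣ n) :
    (F.card : ℝ) ≤ (k * Y : ℕ) * (2 * Real.exp 10 * (1 + Real.log Y) / Real.log W ^ 2)
      + Y * (2 * (W : ℝ) ^ 28) + Y * (B * A) := by
  classical
  set P : ℕ → Prop := fun p => ∃ c q, 1 ≤ c ∧ c ≤ Y ∧ q.Prime ∧ W < q ∧ p = c * q + 1 with hP
  have h1 := large_prime (X := k * Y) (Y := Y) hW (F.filter P) fun p hp =>
    ⟨(hF p (mem_filter.1 hp).1).1, (hF p (mem_filter.1 hp).1).2.1, (mem_filter.1 hp).2⟩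
  have h2 : F.filter (fun p => ¬ P p) ⊆
      (Icc 1 Y ×ˢ range B ×ˢ range A).image fun z => z.1 * z.2.1 ^ z.2.2 + 1 := by
    intro p hp
    obtain ⟨hp, hp'⟩ := mem_filter.1 hp
    obtain ⟨p1, p2, p3⟩ := hF p hp
    rw [Nat.dvd_iff_prime_pow_dvd_dvd] at p3
    push Not at p3
    obtain ⟨q, a, q1, ⟨c, hc⟩, q3⟩ := p3
    have two := p1.two_le
    have k1 : k < q ^ a := not_le.1 fun h => q3 (hn _ (pow_pos q1.pos a) h)
    have c1 : 1 ≤ c := Nat.pos_of_ne_zero fun h => by rw [h] at hc; omega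
    have k2 : q ^ a ≤ k * Y := (Nat.le_mul_of_pos_right _ c1).trans (by omega)
    have c2 : c ≤ Y := by
      by_contra h
      have : k * Y ≤ q ^ a * c := Nat.mul_le_mul k1.le (by omega)
      omega
    have a2 : 2 ≤ a := by
      by_contra h
      obtain rfl | rfl : a = 0 ∨ a = 1 := by omega
      · rw [pow_zero] at k1; omega
      · rw [pow_one] at k1 hc
        exact hp' ⟨c, q, c1, c2, q1, by omega, by rw [mul_comm]; omega⟩
    refine mem_image.2 ⟨(c, q, a), mem_product.2 ⟨mem_Icc.2 ⟨c1, c2⟩, mem_product.2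
      ⟨mem_range.2 (hB q ((Nat.pow_le_pow_right q1.pos a2).trans k2)),
        mem_range.2 (hA a ((Nat.pow_le_pow_left q1.two_le a).trans k2))⟩⟩, ?_⟩
    change c * q ^ a + 1 = p
    rw [mul_comm]; omega
  have h3 := (card_le_card h2).trans card_image_le
  rw [card_product, card_product, Nat.card_Icc, card_range, card_range, Nat.add_sub_cancel] at h3
  have h4 : ((F.filter fun p => ¬ P p).card : ℝ) ≤ Y * (B * A) := by exact_mod_cast h3
  rw [← card_filter_add_card_filter_not (s := F) P]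
  push_cast at h1 ⊢
  linarith

lemma ev_log {δ : ℝ} (hδ : 0 < δ) (C : ℝ) :
    ∀ᶠ k : ℕ in atTop, C * Real.log k ≤ (k : ℝ) ^ δ := by
  have h := (isLittleO_log_rpow_atTop hδ).bound (c := (|C| + 1)⁻¹) (by positivity)
  filter_upwards [tendsto_natCast_atTop_atTop.eventually h] with k hk
  have hl := Real.log_natCast_nonneg k
  rw [Real.norm_of_nonneg hl, Real.norm_of_nonneg (by positivity),
    le_inv_mul_iff₀ (by positivity)] at hk
  nlinarith [le_abs_self C]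

theorem exists_prime : ∃ η : ℝ, 0 < η ∧ ∀ᶠ k : ℕ in atTop, ∀ n N : ℕ, N ≠ 0 →
    (∀ d, 1 ≤ d → d ≤ k → d ∣ n) →
    ((N.primeFactors.filter (· ≤ k ^ 2)).card : ℝ) ≤ (k : ℝ) ^ (1 + η) →
    ∃ p : ℕ, p.Prime ∧ p ≠ 2 ∧ ¬ p ^ 2 ∣ 2 ^ (p - 1) - 1 ∧ p ≤ k ^ 2 ∧ p - 1 ∣ n ∧ ¬ p ∣ N := by
  classical
  obtain ⟨D, hD, D1⟩ : ∃ D : ℝ, D = 2 * Real.exp 10 * 3600 ∧ 1 ≤ D :=
    ⟨_, rfl, by nlinarith [Real.add_one_le_exp 10]⟩
  obtain ⟨η, η0, η1, η2⟩ : ∃ η : ℝ, 0 < η ∧ η ≤ 1 / 10 ∧ D * (2 * η) = 1 / 2500 := by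
    refine ⟨1 / (5000 * D), by positivity, ?_, by field_simp; norm_num⟩
    exact one_div_le_one_div_of_le (by norm_num) (by linarith)
  obtain ⟨X₀, hX⟩ := eventually_atTop.1 NW.count_nw
  have hlog : Tendsto (fun k : ℕ => Real.log k) atTop atTop :=
    Real.tendsto_log_atTop.comp tendsto_natCast_atTop_atTop
  refine ⟨η, η0, ?_⟩
  filter_upwards [eventually_ge_atTop X₀, eventually_ge_atTop 2, ev_log η0 5000,
    ev_log (δ := 1 / 30) (by norm_num) 100, ev_log (δ := 1 / 15) (by norm_num) 5000,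
    ev_log (δ := 1 / 5) (by norm_num) 200, hlog.eventually_ge_atTop (2500 * D)]
    with k k0 k2 e1 e2 e3 e4 e5 n N hN hn hω
  by_contra hcon
  push Not at hcon
  have r2 : (2 : ℝ) ≤ k := by exact_mod_cast k2
  have r0 : (0 : ℝ) < k := by linarith
  have r1 : (1 : ℝ) ≤ k := by linarith
  set L := Real.log k with hL
  have L1 : 2500 ≤ L := by linarith
  have hY1 : (1 : ℝ) ≤ (k : ℝ) ^ (2 * η) := Real.one_le_rpow r1 (by linarith)
  obtain ⟨Y, Y1, Y2, Y3⟩ : ∃ Y : ℕ, 1 ≤ Y ∧ (Y : ℝ) ≤ (k : ℝ) ^ (2 * η) ∧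
      (k : ℝ) ^ (2 * η) ≤ 2 * Y := by
    refine ⟨⌊(k : ℝ) ^ (2 * η)⌋₊, Nat.le_floor (by simpa using hY1), Nat.floor_le (by linarith), ?_⟩
    have a := Nat.lt_floor_add_one ((k : ℝ) ^ (2 * η))
    have b : (1 : ℝ) ≤ ⌊(k : ℝ) ^ (2 * η)⌋₊ := by
      exact_mod_cast Nat.le_floor (n := 1) (by simpa using hY1)
    linarith
  obtain ⟨W, W1, W2, W3⟩ : ∃ W : ℕ, 16 ≤ W ∧ (W : ℝ) ≤ (k : ℝ) ^ (1 / 30 : ℝ) ∧
      (k : ℝ) ^ (1 / 30 : ℝ) ≤ 2 * W := by
    have b : 16 ≤ ⌊(k : ℝ) ^ (1 / 30 : ℝ)⌋₊ := Nat.le_floor (by push_cast; linarith)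
    refine ⟨_, b, Nat.floor_le (by positivity), ?_⟩
    have a := Nat.lt_floor_add_one ((k : ℝ) ^ (1 / 30 : ℝ))
    have b' : (16 : ℝ) ≤ ⌊(k : ℝ) ^ (1 / 30 : ℝ)⌋₊ := by exact_mod_cast b
    linarith
  have Yr : (1 : ℝ) ≤ Y := by exact_mod_cast Y1
  have Wr : (16 : ℝ) ≤ W := by exact_mod_cast W1
  have Y5 : (Y : ℝ) ≤ (k : ℝ) ^ (1 / 5 : ℝ) :=
    Y2.trans (Real.rpow_le_rpow_of_exponent_le r1 (by linarith))
  have le1 : ∀ s : ℝ, s ≤ 1 → (k : ℝ) ^ s ≤ k := fun s hs =>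
    (Real.rpow_le_rpow_of_exponent_le r1 hs).trans (Real.rpow_one _).le
  have Yk : Y ≤ k := by exact_mod_cast Y5.trans (le1 _ (by norm_num))
  have Wk : W ≤ k := by exact_mod_cast W2.trans (le1 _ (by norm_num))
  have lY : Real.log Y ≤ 2 * η * L := by
    rw [hL, ← Real.log_rpow r0]; exact Real.log_le_log (by linarith) Y2
  have lY0 := Real.log_natCast_nonneg Y
  have l2 : Real.log 2 ≤ 1 := by linarith [Real.log_two_lt_d9]
  have lW : L / 60 ≤ Real.log W := by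
    have := Real.log_le_log (by positivity) W3
    rw [Real.log_rpow r0, Real.log_mul two_ne_zero (by linarith)] at this
    linarith
  have lX : Real.log (k * Y : ℕ) ≤ 2 * L := by
    rw [Nat.cast_mul, Real.log_mul r0.ne' (by linarith)]
    have := mul_le_mul_of_nonneg_right η1 (by linarith : 0 ≤ L)
    linarith
  have lX0 : 0 < Real.log (k * Y : ℕ) := by
    rw [Nat.cast_mul, Real.log_mul r0.ne' (by linarith)]
    linarith
  have h1 := hX (k * Y) (k0.trans (Nat.le_mul_of_pos_right _ Y1))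
  set S := (Icc 1 (k * Y)).filter fun p => p.Prime ∧ p ≠ 2 ∧ ¬ p ^ 2 ∣ 2 ^ (p - 1) - 1 with hS
  have h2 := count (k := k) (Y := Y) (A := ⌊4 * L⌋₊ + 1) (B := ⌊(k : ℝ) ^ (3 / 5 : ℝ)⌋₊ + 1) W1 Wk
    (fun a ha => Nat.lt_succ_of_le (Nat.le_floor (by
      have : (2 : ℝ) ^ a ≤ (k * Y : ℕ) := by exact_mod_cast ha
      have := Real.log_le_log (by positivity) this
      rw [Real.log_pow] at this
      nlinarith [Real.log_two_gt_d9, Nat.cast_nonneg (α := ℝ) a])))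
    (fun q hq => Nat.lt_succ_of_le (Nat.le_floor (by
      have a : (q : ℝ) ^ 2 ≤ k * Y := by exact_mod_cast hq
      have b : ((k : ℝ) ^ (3 / 5 : ℝ)) ^ 2 = k * (k : ℝ) ^ (1 / 5 : ℝ) := by
        rw [← Real.rpow_natCast, ← Real.rpow_mul r0.le, ← Real.rpow_one_add' r0.le (by norm_num)]
        norm_num
      exact le_of_sq_le_sq (a.trans (b ▸ mul_le_mul_of_nonneg_left Y5 r0.le)) (by positivity))))
    hn (S.filter fun p => ¬ p - 1 ∣ n) fun p hp => by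
      obtain ⟨a, b⟩ := mem_filter.1 hp
      exact ⟨(mem_filter.1 a).2.1, (mem_Icc.1 (mem_filter.1 a).1).2, b⟩
  have h3 : S.filter (fun p => p - 1 ∣ n) ⊆ N.primeFactors.filter (· ≤ k ^ 2) := fun p hp => by
    obtain ⟨a, b⟩ := mem_filter.1 hp
    obtain ⟨c, d, e, f⟩ := mem_filter.1 a
    have g : p ≤ k ^ 2 := (mem_Icc.1 c).2.trans (by rw [sq]; exact Nat.mul_le_mul_left _ Yk)
    exact mem_filter.2 ⟨Nat.mem_primeFactors.2 ⟨d, hcon p d e f g b, hN⟩, g⟩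
  have h4 : ((S.filter fun p => p - 1 ∣ n).card : ℝ) ≤ (k : ℝ) ^ (1 + η) :=
    le_trans (by exact_mod_cast card_le_card h3) hω
  rw [← card_filter_add_card_filter_not (s := S) (fun p => p - 1 ∣ n)] at h1
  have L0 : 0 < L := by linarith
  set u : ℝ := k * Y / (2500 * L) with hu
  have u0 : 0 < u := by positivity
  have t0 : 6 * u ≤ (k * Y : ℕ) / (200 * Real.log (k * Y : ℕ)) := by
    rw [hu, ← mul_div_assoc, div_le_div_iff₀ (by positivity) (by positivity)]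
    have := mul_le_mul_of_nonneg_left lX (by positivity : (0 : ℝ) ≤ k * Y)
    have : (0 : ℝ) ≤ k * Y * L := by positivity
    rw [show ((k * Y : ℕ) : ℝ) * (2500 * L) = 2500 * (k * Y * L) by push_cast; ring]
    linarith
  have t1 : (k : ℝ) ^ (1 + η) ≤ u := by
    rw [hu, le_div_iff₀ (by positivity), Real.rpow_add r0, Real.rpow_one, mul_assoc]
    refine mul_le_mul_of_nonneg_left ?_ r0.le
    rw [two_mul η, Real.rpow_add r0] at Y3
    have := mul_le_mul_of_nonneg_left e1 (Real.rpow_pos_of_pos r0 η).le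
    linarith
  have t2 : ((k * Y : ℕ) : ℝ) * (2 * Real.exp 10 * (1 + Real.log Y) / Real.log W ^ 2) ≤ 2 * u := by
    have a : 2 * Real.exp 10 * (1 + Real.log Y) / Real.log W ^ 2 ≤
        2 * Real.exp 10 * (1 + 2 * η * L) / (L / 60) ^ 2 := by gcongr
    have b : 2 * Real.exp 10 * (1 + 2 * η * L) / (L / 60) ^ 2 = (D + D * (2 * η) * L) / L ^ 2 := by
      rw [hD]; field_simp; norm_num
    have c : (D + D * (2 * η) * L) / L ^ 2 ≤ 2 / (2500 * L) := by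
      rw [η2, div_le_div_iff₀ (by positivity) (by positivity)]
      have := mul_le_mul_of_nonneg_right e5 L0.le
      linarith
    refine (mul_le_mul_of_nonneg_left (a.trans (b.trans_le c)) (by positivity)).trans (le_of_eq ?_)
    rw [hu]; push_cast; ring
  have t3 : (Y : ℝ) * (2 * (W : ℝ) ^ 28) ≤ u := by
    have a : (W : ℝ) ^ 28 ≤ (k : ℝ) ^ (14 / 15 : ℝ) := by
      refine (pow_le_pow_left₀ (by positivity) W2 28).trans (le_of_eq ?_)
      rw [← Real.rpow_natCast, ← Real.rpow_mul r0.le]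
      norm_num
    have b : (k : ℝ) ^ (14 / 15 : ℝ) * (k : ℝ) ^ (1 / 15 : ℝ) = k := by
      rw [← Real.rpow_add r0]; norm_num
    have c : (W : ℝ) ^ 28 * (5000 * L) ≤ k :=
      (mul_le_mul a e3 (by positivity) (by positivity)).trans b.le
    rw [hu, le_div_iff₀ (by positivity)]
    have := mul_le_mul_of_nonneg_left c (by positivity : (0 : ℝ) ≤ Y)
    linarith
  have t4 : (Y : ℝ) * ((⌊(k : ℝ) ^ (3 / 5 : ℝ)⌋₊ + 1 : ℕ) * (⌊4 * L⌋₊ + 1 : ℕ)) ≤ u := by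
    have a : ((⌊(k : ℝ) ^ (3 / 5 : ℝ)⌋₊ + 1 : ℕ) : ℝ) ≤ 2 * (k : ℝ) ^ (3 / 5 : ℝ) := by
      have := Nat.floor_le (a := (k : ℝ) ^ (3 / 5 : ℝ)) (by positivity)
      have := Real.one_le_rpow r1 (z := 3 / 5) (by norm_num)
      push_cast; linarith
    have b : ((⌊4 * L⌋₊ + 1 : ℕ) : ℝ) ≤ 5 * L := by
      have := Nat.floor_le (a := 4 * L) (by positivity)
      push_cast; linarith
    have c : (k : ℝ) ^ (3 / 5 : ℝ) * ((k : ℝ) ^ (1 / 5 : ℝ) * (k : ℝ) ^ (1 / 5 : ℝ)) = k := by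
      rw [← Real.rpow_add r0, ← Real.rpow_add r0]; norm_num
    have d : (k : ℝ) ^ (3 / 5 : ℝ) * (200 * L * (200 * L)) ≤ k :=
      (mul_le_mul_of_nonneg_left (mul_le_mul e4 e4 (by positivity) (by positivity))
        (by positivity)).trans c.le
    have e := mul_le_mul a b (by positivity) (by positivity)
    refine (mul_le_mul_of_nonneg_left e (by positivity)).trans ?_
    rw [hu, le_div_iff₀ (by positivity)]
    have f : 0 ≤ Y * ((k : ℝ) ^ (3 / 5 : ℝ) * (L * L)) := by positivity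
    have := mul_le_mul_of_nonneg_left d (by positivity : (0 : ℝ) ≤ Y)
    linarith
  rw [Nat.cast_add] at h1
  linarith

end Pool.Agent.Lib.MP_6aa000_nt.H77
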