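import Pool.Agent.Lib.MP_0a06fe_nt.Twin

/-!
Primes `p` such that `p - 1` has a very large prime factor.
-/

set_option autoImplicit false

namespace Pool.Agent.Lib.MP_6aa000_nt.H77

open Finset Pool.Agent.Lib.MP_0a06fe_nt

/-- the sum of the reciprocals of the prime factors -/
noncomputable def sg (c : ℕ) : ℝ := ∑ p ∈ c.primeFactors, (p : ℝ)⁻¹

lemma twin_plus {W c X : ℕ} (hW : 16 ≤ W) (hc : 1 ≤ c)
    (T : Finset ℕ) (hT : ∀ q ∈ T, q ≤ X ∧ q.Prime ∧ W < q ∧ (c * q + 1).Prime) :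
    (T.card : ℝ) ≤ X * (2 * Real.exp 6 * Real.exp (2 * sg c) / Real.log W ^ 2)
      + 2 * (W : ℝ) ^ 28 := by
  classical
  set Q := W.primesLE.filter fun p => 4 ≤ p ∧ ¬ p ∣ c with hQ
  have hQ' : ∀ p ∈ Q, p.Prime ∧ p ≤ W ∧ 4 ≤ p ∧ ¬ p ∣ c := fun p hp => by
    obtain ⟨h1, h2⟩ := mem_filter.1 hp
    exact ⟨(Nat.mem_primesLE.1 h1).2, (Nat.mem_primesLE.1 h1).1, h2⟩
  have hch : ∀ p : ℕ, ∃ m, p ∈ Q → m < p ∧ c * m % p = 1 := fun p => by
    by_cases h : p ∈ Q
    · obtain ⟨h1, -, -, h2⟩ := hQ' p h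
      obtain ⟨m, hm⟩ := Nat.exists_mul_mod_eq_one_of_coprime
        ((Nat.Prime.coprime_iff_not_dvd h1).2 h2).symm h1.one_lt
      exact ⟨m, fun _ => hm⟩
    · exact ⟨0, fun h' => absurd h' h⟩
  choose r hr using hch
  have hWr : (16 : ℝ) ≤ W := by exact_mod_cast hW
  have hlW : 0 < Real.log W := Real.log_pos (by linarith)
  have hg' : ∀ p ∈ Q, 0 ≤ (2 : ℝ) / p ∧ (2 : ℝ) / p ≤ 1 / 2 := fun p hp => ⟨by positivity, by
    have : (4 : ℝ) ≤ p := by exact_mod_cast (hQ' p hp).2.2.1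
    rw [div_le_div_iff₀ (by linarith) two_pos]; linarith⟩
  have h1 := selG_ge Q (W ^ 7) W (fun p => 2 / p) (by omega) le_rfl
    (fun p hp => ⟨(hQ' p hp).1.pos, (hQ' p hp).2.1⟩) hg' (by
      have h2 := sum_log_div_le (n := W) (by omega)
      have h3 : ∑ p ∈ Q, (2 : ℝ) / p * Real.log p ≤ ∑ p ∈ W.primesLE, 2 * (Real.log p / p) := by
        refine le_trans (le_of_eq (sum_congr rfl fun p _ => by ring))
          (sum_le_sum_of_subset_of_nonneg (filter_subset _ _) fun p _ _ => ?_)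
        exact mul_nonneg zero_le_two (div_nonneg (Real.log_natCast_nonneg p) (by positivity))
      have h4 : 2 * Real.log 4 ≤ Real.log W := by
        rw [show 2 * Real.log 4 = Real.log (4 ^ 2) by rw [Real.log_pow]; norm_num]
        exact Real.log_le_log (by norm_num) (by linarith)
      rw [← mul_sum] at h3
      linarith)
  have h2 : Real.log (Real.log W) - 3 - sg c ≤ ∑ p ∈ Q, (p : ℝ)⁻¹ := by
    have k1 := sum_inv_primesLE_ge (n := W) (by omega)
    have k2 : W.primesLE ⊆ Q ∪ ({2, 3} ∪ c.primeFactors) := fun p hp => by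
      have hp' := (Nat.mem_primesLE.1 hp).2
      by_cases a : 4 ≤ p
      · by_cases b : p ∣ c
        · exact mem_union_right _ (mem_union_right _ (Nat.mem_primeFactors.2 ⟨hp', b, by omega⟩))
        · exact mem_union_left _ (mem_filter.2 ⟨hp, a, b⟩)
      · have := hp'.two_le
        refine mem_union_right _ (mem_union_left _ ?_)
        rw [mem_insert, mem_singleton]
        omega
    have k3 : ∀ A B : Finset ℕ, ∑ p ∈ A ∪ B, (p : ℝ)⁻¹ ≤ ∑ p ∈ A, (p : ℝ)⁻¹ + ∑ p ∈ B, (p : ℝ)⁻¹ :=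
      fun A B => by
        rw [← sum_union_inter]
        exact le_add_of_nonneg_right (sum_nonneg fun _ _ => by positivity)
    have k4 := sum_le_sum_of_subset_of_nonneg (f := fun p : ℕ => (p : ℝ)⁻¹) k2
      fun _ _ _ => by positivity
    have k5 := k3 Q ({2, 3} ∪ c.primeFactors)
    have k6 := k3 {2, 3} c.primeFactors
    have k7 : ∑ p ∈ ({2, 3} : Finset ℕ), (p : ℝ)⁻¹ ≤ 1 := by
      rw [sum_pair (by norm_num)]; norm_num
    have k9 : Real.log (Real.log W) ≤ Real.log (Real.log (W + 1)) :=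
      Real.log_le_log hlW (Real.log_le_log (by linarith) (by linarith))
    unfold sg
    linarith
  set G := Real.log W ^ 2 / (2 * Real.exp 6 * Real.exp (2 * sg c)) with hG
  have h3 : G ≤ Real.exp (∑ p ∈ Q, (2 : ℝ) / p) / 2 := by
    have e1 : ∑ p ∈ Q, (2 : ℝ) / p = 2 * ∑ p ∈ Q, (p : ℝ)⁻¹ := by
      rw [mul_sum]; exact sum_congr rfl fun _ _ => div_eq_mul_inv _ _
    have e2 : G = Real.exp (2 * (Real.log (Real.log W) - 3 - sg c)) / 2 := by
      rw [show 2 * (Real.log (Real.log W) - 3 - sg c) =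
        Real.log (Real.log W) + Real.log (Real.log W) - (6 + 2 * sg c) by ring, Real.exp_sub,
        Real.exp_add, Real.exp_add, Real.exp_log hlW, hG]
      field_simp
    rw [e1, e2]
    gcongr
  have h4 := two_class_sieve Q T (W ^ 7) X (fun p => p - r p) G (by positivity)
    (fun p hp => by
      obtain ⟨a, -, b, -⟩ := hQ' p hp
      obtain ⟨e, f⟩ := hr p hp
      have : r p ≠ 0 := fun h => by rw [h] at f; simp at f
      exact ⟨a, b, by omega, by omega⟩)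
    (h3.trans h1) (fun q hq => by
      obtain ⟨a, b, d, e⟩ := hT q hq
      refine ⟨b.pos, a, fun p hp => ?_⟩
      obtain ⟨p1, p2, -, -⟩ := hQ' p hp
      refine ⟨fun h => ?_, fun h => ?_⟩
      · have := (Nat.prime_dvd_prime_iff_eq p1 b).1 (Nat.dvd_of_mod_eq_zero h)
        omega
      · have h5 : q ≤ c * q := Nat.le_mul_of_pos_left _ hc
        obtain ⟨f1, f2⟩ := hr p hp
        have h6 := Nat.div_add_mod q p
        have h7 := Nat.div_add_mod (c * r p) p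
        rw [h] at h6
        rw [f2] at h7
        have h8 : p ∣ c * q + 1 := by
          refine Int.natCast_dvd_natCast.1 ⟨c * (q / p : ℕ) + c - (c * r p / p : ℕ), ?_⟩
          zify [f1.le] at h6 h7
          push_cast
          linear_combination (-(c : ℤ)) * h6 + h7
        have := (Nat.prime_dvd_prime_iff_eq p1 e).1 h8
        omega)
    (Nat.one_le_pow _ _ (by omega))
  refine h4.trans (le_of_eq ?_)
  rw [hG, div_div_eq_mul_div, mul_div_assoc]
  push_cast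
  ring

lemma harm_le (Y : ℕ) : ∑ c ∈ Icc 1 Y, (c : ℝ)⁻¹ ≤ 1 + Real.log Y := by
  have := harmonic_le_one_add_log Y
  rwa [harmonic_eq_sum_Icc, Rat.cast_sum, sum_congr rfl fun c _ => by
    rw [Rat.cast_inv, Rat.cast_natCast]] at this

lemma harm_dvd (Y d : ℕ) (hd : 1 ≤ d) :
    ∑ c ∈ (Icc 1 Y).filter (d ∣ ·), (c : ℝ)⁻¹ ≤ (d : ℝ)⁻¹ * (1 + Real.log Y) := by
  have h1 : (Icc 1 Y).filter (d ∣ ·) ⊆ (Icc 1 Y).image (d * ·) := fun c hc => by
    obtain ⟨h, e, rfl⟩ := mem_filter.1 hc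
    rw [mem_Icc] at h
    refine mem_image.2 ⟨e, mem_Icc.2 ⟨Nat.pos_of_ne_zero fun k => ?_, ?_⟩, rfl⟩
    · rw [k] at h; omega
    · exact (Nat.le_mul_of_pos_left _ hd).trans h.2
  refine (sum_le_sum_of_subset_of_nonneg h1 fun _ _ _ => by positivity).trans ?_
  rw [sum_image fun a _ b _ h => Nat.eq_of_mul_eq_mul_left hd h]
  refine le_trans (le_of_eq ?_) (mul_le_mul_of_nonneg_left (harm_le Y) (by positivity))
  rw [mul_sum]
  exact sum_congr rfl fun c _ => by push_cast; rw [mul_inv]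

lemma sum_sg (Y : ℕ) :
    ∑ c ∈ Icc 1 Y, Real.exp (2 * sg c) / c ≤ Real.exp 4 * (1 + Real.log Y) := by
  classical
  have hl : 0 ≤ 1 + Real.log Y := add_nonneg zero_le_one (Real.log_natCast_nonneg Y)
  have h1 : ∀ c ∈ Icc 1 Y, Real.exp (2 * sg c) / c ≤
      ∑ S ∈ Y.primesLE.powerset, if (∏ p ∈ S, p) ∣ c then (∏ p ∈ S, (4 : ℝ) / p) * (c : ℝ)⁻¹
        else 0 := by
    intro c hc
    rw [mem_Icc] at hc
    have k1 : Real.exp (2 * sg c) ≤ ∏ p ∈ c.primeFactors, (1 + (4 : ℝ) / p) := by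
      rw [sg, mul_sum, Real.exp_sum]
      refine prod_le_prod (fun _ _ => by positivity) fun p hp => ?_
      have a : (2 : ℝ) ≤ p := by exact_mod_cast (Nat.prime_of_mem_primeFactors hp).two_le
      have b : 2 * (p : ℝ)⁻¹ ≤ 1 := by rw [← div_eq_mul_inv, div_le_one (by linarith)]; exact a
      have d : 0 ≤ 2 * (p : ℝ)⁻¹ := by positivity
      have e := Real.abs_exp_sub_one_le (x := 2 * (p : ℝ)⁻¹) (by rwa [abs_of_nonneg d])
      rw [abs_of_nonneg d] at e
      have := le_abs_self (Real.exp (2 * (p : ℝ)⁻¹) - 1)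
      rw [div_eq_mul_inv]
      linarith
    rw [prod_one_add] at k1
    rw [← sum_filter, ← sum_mul, div_eq_mul_inv]
    refine mul_le_mul_of_nonneg_right (k1.trans (sum_le_sum_of_subset_of_nonneg (fun S hS => ?_)
      fun _ _ _ => by positivity)) (by positivity)
    rw [mem_powerset] at hS
    refine mem_filter.2 ⟨mem_powerset.2 fun p hp => ?_,
      (prod_dvd_prod_of_subset _ _ _ hS).trans (Nat.prod_primeFactors_dvd c)⟩
    have := Nat.mem_primeFactors.1 (hS hp)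
    exact Nat.mem_primesLE.2 ⟨(Nat.le_of_dvd hc.1 this.2.1).trans hc.2, this.1⟩
  refine (sum_le_sum h1).trans ?_
  rw [sum_comm]
  have h2 : ∀ S ∈ Y.primesLE.powerset, (∑ c ∈ Icc 1 Y, if (∏ p ∈ S, p) ∣ c then
      (∏ p ∈ S, (4 : ℝ) / p) * (c : ℝ)⁻¹ else 0) ≤
        (∏ p ∈ S, (4 : ℝ) * ((p : ℝ) ^ 2)⁻¹) * (1 + Real.log Y) := by
    intro S hS
    rw [← sum_filter, ← mul_sum]
    have := harm_dvd Y (∏ p ∈ S, p) (prod_pos fun p hp =>
      (Nat.mem_primesLE.1 (mem_powerset.1 hS hp)).2.pos)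
    refine (mul_le_mul_of_nonneg_left this (by positivity)).trans (le_of_eq ?_)
    rw [← mul_assoc, Nat.cast_prod, ← prod_inv_distrib, ← prod_mul_distrib]
    congr 1
    exact prod_congr rfl fun p _ => by rw [sq, mul_inv]; ring
  refine (sum_le_sum h2).trans ?_
  rw [← sum_mul, ← prod_one_add]
  refine mul_le_mul_of_nonneg_right ?_ hl
  refine (prod_le_prod (fun _ _ => by positivity) fun (p : ℕ) _ =>
    (add_comm _ _).trans_le (Real.add_one_le_exp (4 * ((p : ℝ) ^ 2)⁻¹))).trans ?_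
  rw [← Real.exp_sum, ← mul_sum]
  have h3 : ∑ p ∈ Y.primesLE, ((p : ℝ) ^ 2)⁻¹ ≤ 1 := by
    have k := sum_Ioo_inv_sq_le (α := ℝ) 1 (Y + 1)
    refine le_trans (sum_le_sum_of_subset_of_nonneg (fun p hp => ?_) fun _ _ _ => by positivity)
      (k.trans (by norm_num))
    have := Nat.mem_primesLE.1 hp
    exact mem_Ioo.2 ⟨this.2.one_lt, by omega⟩
  exact Real.exp_le_exp.2 (by linarith)

/-- primes `c q + 1 ≤ X` with `c ≤ Y` and `q` prime -/
lemma large_prime {W X Y : ℕ} (hW : 16 ≤ W) (F : Finset ℕ)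
    (hF : ∀ p ∈ F, p.Prime ∧ p ≤ X ∧ ∃ c q, 1 ≤ c ∧ c ≤ Y ∧ q.Prime ∧ W < q ∧ p = c * q + 1) :
    (F.card : ℝ) ≤ X * (2 * Real.exp 10 * (1 + Real.log Y) / Real.log W ^ 2)
      + Y * (2 * (W : ℝ) ^ 28) := by
  classical
  set T : ℕ → Finset ℕ := fun c => (Icc 1 (X / c)).filter fun q =>
    q.Prime ∧ W < q ∧ (c * q + 1).Prime with hT
  have h1 : F ⊆ (Icc 1 Y).biUnion fun c => (T c).image fun q => c * q + 1 := fun p hp => by
    obtain ⟨a, b, c, q, c1, c2, q1, q2, rfl⟩ := hF p hp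
    refine mem_biUnion.2 ⟨c, mem_Icc.2 ⟨c1, c2⟩, mem_image.2 ⟨q, mem_filter.2
      ⟨mem_Icc.2 ⟨q1.pos, (Nat.le_div_iff_mul_le c1).2 ?_⟩, q1, q2, a⟩, rfl⟩⟩
    rw [mul_comm]; omega
  have h2 : F.card ≤ ∑ c ∈ Icc 1 Y, (T c).card :=
    (card_le_card h1).trans (card_biUnion_le.trans (sum_le_sum fun _ _ => card_image_le))
  have h3 : ∀ c ∈ Icc 1 Y, ((T c).card : ℝ) ≤
      X * (2 * Real.exp 6 / Real.log W ^ 2) * (Real.exp (2 * sg c) / c) + 2 * (W : ℝ) ^ 28 := by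
    intro c hc
    refine (twin_plus (X := X / c) hW (mem_Icc.1 hc).1 (T c) fun q hq =>
      ⟨(mem_Icc.1 (mem_filter.1 hq).1).2, (mem_filter.1 hq).2⟩).trans ?_
    have : ((X / c : ℕ) : ℝ) ≤ X / c := Nat.cast_div_le
    refine add_le_add_left ((mul_le_mul_of_nonneg_right this (by positivity)).trans
      (le_of_eq (by ring))) _
  refine le_trans (by exact_mod_cast h2) ((sum_le_sum h3).trans ?_)
  rw [sum_add_distrib, ← mul_sum, sum_const, Nat.card_Icc, Nat.add_sub_cancel, nsmul_eq_mul]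
  refine add_le_add_left ((mul_le_mul_of_nonneg_left (sum_sg Y) (by positivity)).trans
    (le_of_eq ?_)) _
  rw [show (10 : ℝ) = 6 + 4 by norm_num, Real.exp_add]
  ring

end Pool.Agent.Lib.MP_6aa000_nt.H77
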